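import Pool.Agent.E8helper20.CTK3.StmD
import Pool.Agent.R419.KF.FewBad

/-!
# Project CTK3 (helper20), part D3 BAD3: few sets have degenerate labels

Adaptation of `Pool/Agent/R419/KF/FewBad.lean` (labels with the additional vertex `3`).
-/

set_option autoImplicit false

open scoped Classical

namespace Pool.Agent.E8helper69.CTK3

open Finset Filter
open Pool.Agent.Y692.QS (Ei)
open Pool.Agent.Y715.T.Rec (cs)
open Pool.Agent.Y715.T.RecG (Pq)
open Pool.Agent.Y699.E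
open Pool.Agent.Y703.CX (eL zz kk)
open Pool.Agent.Y703.XK (sm la bl Nd)
open Pool.Agent.R419.KF (SG)
open Pool.Agent.R419.KF.Few (gen fiber_le pair_count)
open Pool.Agent.Y433.XK (pN pN_pos Dg)
open Pool.Agent.E8helper20.CTK3

/-- the labels with the vertex `3` are degenerate with respect to `t` and two disjoint sets -/
def Dg3 (t : ZMod 3) (A B : Finset Ei) (T : Finset Ei) : Prop :=
  ∀ π ∈ T, t * cs π 3 + (∑ u ∈ A, cs u π - ∑ u ∈ B, cs u π) = 0

theorem notNd3 {S₀ T : Finset Ei} (h : ¬ Nd3 S₀ T) : ∃ (t : ZMod 3) (A B : Finset Ei),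
    A ⊆ S₀ ∧ B ⊆ S₀ ∧ Disjoint A B ∧ (t ≠ 0 ∨ A ≠ B) ∧ Dg3 t A B T := by
  unfold Nd3 at h
  push Not at h
  obtain ⟨t, v, htv, h2⟩ := h
  refine ⟨t, S₀.filter fun u => v u = 1, S₀.filter fun u => v u = 2, filter_subset _ _,
    filter_subset _ _, ?_, ?_, ?_⟩
  · rw [disjoint_left]
    intro x hx hx2
    rw [mem_filter] at hx hx2
    rw [hx.2] at hx2
    exact absurd hx2.2 (by decide)
  · rcases htv with ht | ⟨u, hu, hu0⟩
    · exact Or.inl ht
    · right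
      intro heq
      have key : ∀ c : ZMod 3, c ≠ 0 → c = 1 ∨ c = 2 := by decide
      rcases key (v u) hu0 with h1 | h1
      · have : u ∈ S₀.filter fun u => v u = 2 := by
          rw [← heq, mem_filter]
          exact ⟨hu, h1⟩
        rw [mem_filter, h1] at this
        exact absurd this.2 (by decide)
      · have : u ∈ S₀.filter fun u => v u = 1 := by
          rw [heq, mem_filter]
          exact ⟨hu, h1⟩
        rw [mem_filter, h1] at this
        exact absurd this.2 (by decide)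
  · intro π hπ
    have h3 := h2 π hπ
    rw [← h3, sum_filter, sum_filter, ← sum_sub_distrib]
    congr 1
    refine sum_congr rfl fun u _ => ?_
    have key : ∀ a b : ZMod 3, (if a = 1 then b else 0) - (if a = 2 then b else 0) = a * b := by
      decide
    exact key (v u) (cs u π)

theorem xval (A B : Ei) (c : ZMod 3) (a : Ei) : ez c * xab A B a = 0 ∨ ez c * xab A B a = 1 ∨
    (ez c * xab A B a) ^ 2 + ez c * xab A B a + 1 = 0 := by
  unfold xab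
  rcases jac_cases A a with h | ⟨c₁, h⟩
  · left; rw [h, zero_mul, mul_zero]
  · rcases jac_cases B a with h' | ⟨c', h'⟩
    · left; rw [h', map_zero, mul_zero, mul_zero]
    · right
      rw [h, h', conj_ez, ← ez_add, ← ez_add]
      exact ez_val _

theorem triple_count (hsup : S_SUPD) (C : ℝ) (hC : 0 ≤ C)
    (hal : ∀ (t : ZMod 3) (A B : Ei), t ≠ 0 → PS A → PS B → ∀ T : ℕ,
      ∑ n ∈ SB T, mf (fun π => (1 + 2 * (ez (t * yd π) * xab A B π).re) / 3) n ≤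
        C * (lg (nrm A * nrm B)) ^ (1 / 3 : ℝ) * (T * (lg T) ^ (-(1 / 3) : ℝ)))
    (X z : ℕ) (S₀ : Finset Ei) (hS₀ : ∀ u ∈ S₀, Pq u ∧ nrm u ≤ z)
    (t : ZMod 3) (A B : Finset Ei) (hA : A ⊆ S₀) (hB : B ⊆ S₀) (hd : Disjoint A B)
    (hAB : t ≠ 0 ∨ A ≠ B)
    (F : Finset (Finset Ei)) (hF : ∀ S ∈ F, (S ∈ SG X ∧ sm z S = S₀) ∧ Dg3 t A B (la z S)) :
    (F.card : ℝ) ≤ (2835 + C) * lg (pN S₀) * (((X / pN S₀ : ℕ) : ℝ) *
          (lg (X / pN S₀)) ^ (-(1 / 3) : ℝ)) := by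
  have hTl : 0 ≤ ((X / pN S₀ : ℕ) : ℝ) * (lg (X / pN S₀)) ^ (-(1 / 3) : ℝ) :=
    mul_nonneg (Nat.cast_nonneg _) (Real.rpow_nonneg (zero_le_one.trans (one_le_lg _)) _)
  have hlgp := lg_pos (pN S₀)
  by_cases ht : t = 0
  · have h0 : A ≠ B := by
      rcases hAB with h | h
      · exact absurd ht h
      · exact h
    refine (pair_count X z S₀ hS₀ A B hA hB hd h0 F (fun S hS => ⟨(hF S hS).1, ?_⟩)).trans ?_
    · intro π hπ
      have := (hF S hS).2 π hπ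
      rwa [ht, zero_mul, zero_add] at this
    · have : (2835 : ℝ) ≤ 2835 + C := by linarith
      gcongr
  obtain ⟨a1, a2⟩ := PS_prod (S := A) fun π hπ => (hS₀ π (hA hπ)).1
  obtain ⟨b1, b2⟩ := PS_prod (S := B) fun π hπ => (hS₀ π (hB hπ)).1
  set a := ∏ π ∈ A, π with ha
  set b := ∏ π ∈ B, π with hb
  have hval : ∀ S ∈ F, ∀ π ∈ la z S, ez (t * yd π) * xab a b π = 1 := by
    intro S hS π hπ
    obtain ⟨⟨h1, h2⟩, h3⟩ := hF S hS
    have hπq : Pq π ∧ ¬ nrm π ≤ z := by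
      unfold la at hπ
      rw [mem_filter] at hπ
      unfold SG at h1
      rw [mem_filter] at h1
      exact ⟨h1.2.1.1 π hπ.1, hπ.2⟩
    have hchi : ∀ u ∈ S₀, chi u π = ez (cs u π) := by
      intro u hu
      refine chi_of fun hdv => ?_
      have := eq_of_dvd (hS₀ u hu).1 hπq.1 hdv
      subst this
      exact hπq.2 (hS₀ u hu).2
    unfold xab jac
    rw [a2, b2, prod_congr rfl fun u hu => hchi u (hA hu), prod_congr rfl fun u hu => hchi u (hB hu),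
      ← ez_sum, ← ez_sum, conj_ez, ← ez_add, ← ez_add, ← sub_eq_add_neg, ← hsup π hπq.1,
      h3 π hπ, ez_zero]
  have h := fiber_le X z S₀ (fun u hu => (hS₀ u hu).1) F (fun S hS => (hF S hS).1)
    (fun π => (1 + 2 * (ez (t * yd π) * xab a b π).re) / 3) (fun π => by
      have := re_nonneg (xval a b (t * yd π) π)
      positivity) 1 (fun S hS => by
      refine le_of_eq (prod_eq_one fun π hπ => ?_).symm
      rw [hval S hS π hπ]
      norm_num)
  rw [mul_one] at h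
  refine h.trans ((hal t a b ht a1 b1 _).trans ?_)
  have hnn : nrm a * nrm b ≤ pN S₀ := by
    rw [ha, hb, nrm_prod, nrm_prod, ← prod_union hd]
    unfold pN
    refine prod_le_prod_of_subset_of_one_le' (union_subset hA hB) fun u hu _ => ?_
    exact nrm_pos' (pq_ne (hS₀ u hu).1)
  have h4 : (lg (nrm a * nrm b)) ^ (1 / 3 : ℝ) ≤ lg (pN S₀) := by
    calc (lg (nrm a * nrm b)) ^ (1 / 3 : ℝ) ≤ (lg (nrm a * nrm b)) ^ (1 : ℝ) :=
          Real.rpow_le_rpow_of_exponent_le (one_le_lg _) (by norm_num)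
      _ = lg (nrm a * nrm b) := Real.rpow_one _
      _ ≤ lg (pN S₀) := lg_mono hnn
  have h5 : C ≤ 2835 + C := by linarith
  have h6 : 0 ≤ (lg (nrm a * nrm b)) ^ (1 / 3 : ℝ) :=
    Real.rpow_nonneg (zero_le_one.trans (one_le_lg _)) _
  gcongr

theorem bad_count (hsup : S_SUPD) (C : ℝ) (hC : 0 ≤ C)
    (hal : ∀ (t : ZMod 3) (A B : Ei), t ≠ 0 → PS A → PS B → ∀ T : ℕ,
      ∑ n ∈ SB T, mf (fun π => (1 + 2 * (ez (t * yd π) * xab A B π).re) / 3) n ≤
        C * (lg (nrm A * nrm B)) ^ (1 / 3 : ℝ) * (T * (lg T) ^ (-(1 / 3) : ℝ)))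
    (X : ℕ) (S₀ : Finset Ei) (hS₀ : ∀ u ∈ S₀, Pq u ∧ nrm u ≤ zz X)
    (G : Finset (Finset Ei))
    (hG : ∀ S ∈ G, S ∈ SG X ∧ (S.card ≤ kk X ∧ ¬ Nd3 (sm (zz X) S) (la (zz X) S)) ∧
      sm (zz X) S = S₀) : (G.card : ℝ) ≤
        (3 * (2835 + C)) * 4 ^ S₀.card * lg (pN S₀) * (((X / pN S₀ : ℕ) : ℝ) *
          (lg (X / pN S₀)) ^ (-(1 / 3) : ℝ)) := by
  set P := ((univ : Finset (ZMod 3)) ×ˢ (S₀.powerset ×ˢ S₀.powerset)).filter fun p =>
    Disjoint p.2.1 p.2.2 ∧ (p.1 ≠ 0 ∨ p.2.1 ≠ p.2.2) with hP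
  have hsub : G ⊆ P.biUnion fun p => G.filter fun S => Dg3 p.1 p.2.1 p.2.2 (la (zz X) S) := by
    intro S hS
    obtain ⟨h1, ⟨h2, h3⟩, h4⟩ := hG S hS
    rw [h4] at h3
    obtain ⟨t, A, B, hA, hB, hd, hAB, hDg⟩ := notNd3 h3
    rw [mem_biUnion]
    refine ⟨(t, A, B), ?_, ?_⟩
    · rw [hP, mem_filter, mem_product, mem_product, mem_powerset, mem_powerset]
      exact ⟨⟨mem_univ _, hA, hB⟩, hd, hAB⟩
    · rw [mem_filter]
      exact ⟨hS, hDg⟩
  have h1 : (G.card : ℝ) ≤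
      ∑ p ∈ P, ((G.filter fun S => Dg3 p.1 p.2.1 p.2.2 (la (zz X) S)).card : ℝ) := by
    exact_mod_cast (card_le_card hsub).trans card_biUnion_le
  have h2 : ∀ p ∈ P, ((G.filter fun S => Dg3 p.1 p.2.1 p.2.2 (la (zz X) S)).card : ℝ) ≤
      (2835 + C) * lg (pN S₀) * (((X / pN S₀ : ℕ) : ℝ) *
        (lg (X / pN S₀)) ^ (-(1 / 3) : ℝ)) := by
    intro p hp
    rw [hP, mem_filter, mem_product, mem_product, mem_powerset, mem_powerset] at hp
    refine triple_count hsup C hC hal X (zz X) S₀ hS₀ p.1 p.2.1 p.2.2 hp.1.2.1 hp.1.2.2 hp.2.1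
      hp.2.2 _ ?_
    intro S hS
    rw [mem_filter] at hS
    have h := hG S hS.1
    exact ⟨⟨h.1, h.2.2⟩, hS.2⟩
  have h3 : (P.card : ℝ) ≤ 3 * 4 ^ S₀.card := by
    have : P.card ≤ 3 * 4 ^ S₀.card := by
      refine (card_filter_le _ _).trans (le_of_eq ?_)
      rw [card_product, card_product, card_powerset, ← mul_pow, card_univ, ZMod.card]
      norm_num
    exact_mod_cast this
  have hTl : 0 ≤ ((X / pN S₀ : ℕ) : ℝ) * (lg (X / pN S₀)) ^ (-(1 / 3) : ℝ) :=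
    mul_nonneg (Nat.cast_nonneg _) (Real.rpow_nonneg (zero_le_one.trans (one_le_lg _)) _)
  have hlg := lg_pos (pN S₀)
  calc (G.card : ℝ) ≤ ∑ p ∈ P, (2835 + C) * lg (pN S₀) * (((X / pN S₀ : ℕ) : ℝ) *
        (lg (X / pN S₀)) ^ (-(1 / 3) : ℝ)) := h1.trans (sum_le_sum h2)
    _ = P.card * ((2835 + C) * lg (pN S₀) * (((X / pN S₀ : ℕ) : ℝ) *
        (lg (X / pN S₀)) ^ (-(1 / 3) : ℝ))) := by rw [sum_const, nsmul_eq_mul]
    _ ≤ (3 * 4 ^ S₀.card) * ((2835 + C) * lg (pN S₀) * (((X / pN S₀ : ℕ) : ℝ) *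
        (lg (X / pN S₀)) ^ (-(1 / 3) : ℝ))) :=
        mul_le_mul_of_nonneg_right h3 (by positivity)
    _ = _ := by ring

/-- D3 -/
theorem t_BAD3 : S_BAD3 := by
  rintro hsup ⟨C, hC, hal⟩ ε hε
  obtain ⟨X₀, hX₀⟩ := gen 4 (3 * (2835 + C)) (by norm_num) (by positivity)
    (fun X S => ¬ Nd3 (sm (zz X) S) (la (zz X) S))
    (fun X S₀ hS₀ _ F hF => bad_count hsup C hC hal X S₀ hS₀ F hF) ε hε
  refine ⟨X₀, fun X hX => hX₀ X hX _ fun S hS => ?_⟩
  rw [mem_filter] at hS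
  exact hS

end Pool.Agent.E8helper69.CTK3
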